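import Pool.Agent.X203.NormAttain2

/-! If every element of `L^p(μ, X)` attains its norm on the unit ball of `L^q(μ, X*)` (`μ` a
non-atomic probability measure) then `X*` has the Radon-Nikodym property. -/

namespace Pool.Agent.Results.MP_01d06f_an.NormAttainmentRNP

open MeasureTheory Set Filter Topology Pool.Agent.X203.Sier Pool.Agent.X203.RNPTree
  Pool.Agent.X203.NA
open scoped ENNReal

universe u

set_option linter.unusedSectionVars false

section

variable {𝕜 X : Type*} [RCLike 𝕜] [NormedAddCommGroup X] [NormedSpace 𝕜 X] [NormedSpace ℝ X]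
  [IsScalarTower ℝ 𝕜 X] {Ω : Type*} [MeasurableSpace Ω] {μ : Measure Ω} [IsProbabilityMeasure μ]
  {p q : ℝ≥0∞} [Fact (1 ≤ p)] [Fact (1 ≤ q)] [ENNReal.HolderConjugate q p]

/-- the functional given by `g` -/
noncomputable def fn (g : Lp (StrongDual 𝕜 X) q μ) : Lp X p μ →L[ℝ] ℝ :=
  (RCLike.reCLM (K := 𝕜)).comp
    (((ContinuousLinearMap.id 𝕜 (StrongDual 𝕜 X)).lpPairing μ q p g).restrictScalars ℝ)

theorem fn_apply (g : Lp (StrongDual 𝕜 X) q μ) (f : Lp X p μ) :
    fn g f = RCLike.re (∫ ω, g ω (f ω) ∂μ) := by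
  show RCLike.re ((ContinuousLinearMap.id 𝕜 (StrongDual 𝕜 X)).lpPairing μ q p g f) = _
  rw [ContinuousLinearMap.lpPairing_eq_integral]
  rfl

theorem norm_fn (g : Lp (StrongDual 𝕜 X) q μ) (hg : ‖g‖ ≤ 1) : ‖(fn g : Lp X p μ →L[ℝ] ℝ)‖ ≤ 1 := by
  refine ContinuousLinearMap.opNorm_le_bound _ zero_le_one fun f => ?_
  rw [fn_apply, one_mul]
  refine (RCLike.norm_re_le_norm _).trans ?_
  set B := ContinuousLinearMap.id 𝕜 (StrongDual 𝕜 X) with hB
  have h1 : ∫ ω, g ω (f ω) ∂μ = ∫ ω, B.holder 1 g f ω ∂μ := by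
    apply integral_congr_ae
    filter_upwards [B.coeFn_holder (r := 1) g f] with ω hω
    rw [hω]
    rfl
  rw [h1]
  have h2 : ‖∫ ω, B.holder 1 g f ω ∂μ‖ ≤ ‖B.holder 1 g f‖ := by
    refine (norm_integral_le_integral_norm _).trans ?_
    rw [L1.norm_eq_integral_norm]
  refine h2.trans ((B.norm_holder_apply_apply_le g f).trans ?_)
  have h3 : ‖B‖ ≤ 1 := ContinuousLinearMap.norm_id_le
  calc ‖B‖ * ‖g‖ * ‖f‖ ≤ 1 * 1 * ‖f‖ := by gcongr
    _ = ‖f‖ := by ring

theorem contradiction_of_bush [CompleteSpace X] (hμ : IsNonatomic μ)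
    (H : ∀ f : Lp X p μ, ∃ g : Lp (StrongDual 𝕜 X) q μ, ‖g‖ ≤ 1 ∧
      ∫ ω, g ω (f ω) ∂μ = ((‖f‖ : ℝ) : 𝕜))
    (B : Bush.{u} (StrongDual 𝕜 X)) : False := by
  obtain ⟨l, hl⟩ := exists_levels hμ (by simp : μ.real univ = 1) B.T
  let Wt : ℕ → Lp X p μ := fun k => (memLp_W B l k p).toLp
  have hWt : ∀ k, Wt k =ᵐ[μ] W B l k := fun k => MemLp.coeFn_toLp _
  have hWn : ∀ k, ‖Wt k‖ ≤ 2 := by
    intro k
    have h1 : ∀ᵐ ω ∂μ, ‖Wt k ω‖ ≤ 2 := by
      filter_upwards [hWt k] with ω hω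
      rw [hω]; exact norm_W B l k ω
    have h2 := Lp.norm_le_of_ae_bound (by positivity) h1
    have h3 : measureUnivNNReal μ = 1 := by
      unfold measureUnivNNReal
      simp
    rw [h3] at h2
    simpa using h2
  have hε := B.pos
  -- the functionals given by the martingale
  have hbq : ∀ K, ∃ b' : Lp (StrongDual 𝕜 X) q μ, ‖b'‖ ≤ 1 ∧ ∀ k, k + 1 ≤ K →
      B.ε / 2 ≤ fn b' (Wt k) := by
    intro K
    let bt : Lp (StrongDual 𝕜 X) q μ := (memLp_b B l K q).toLp _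
    have hbt : bt =ᵐ[μ] b B l K := MemLp.coeFn_toLp (memLp_b B l K q)
    refine ⟨bt, ?_, fun k hk => ?_⟩
    · have h1 : ∀ᵐ ω ∂μ, ‖bt ω‖ ≤ 1 := by
        filter_upwards [hbt] with ω hω
        rw [hω]; exact norm_b B l K ω
      have h2 := Lp.norm_le_of_ae_bound (by positivity) h1
      have h3 : measureUnivNNReal μ = 1 := by
        unfold measureUnivNNReal
        simp
      rw [h3] at h2
      simpa using h2
    · rw [fn_apply]
      have h1 : ∫ ω, bt ω (Wt k ω) ∂μ = ∫ ω, b B l K ω (W B l k ω) ∂μ := by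
        apply integral_congr_ae
        filter_upwards [hbt, hWt k] with ω h1 h2
        rw [h1, h2]
      rw [h1]
      exact value B l hl k K hk
  choose b' hb1 hb2 using hbq
  let x : ℕ → Lp X p μ := fun n => (1 / 2 : ℝ) • Wt n
  have hx : ∀ n, ‖x n‖ ≤ 1 := by
    intro n
    simp only [x]
    rw [norm_smul, Real.norm_eq_abs, abs_of_pos (by norm_num)]
    linarith [hWn n]
  have hconv : ∀ u ∈ convexHull ℝ (Set.range x), B.ε / 4 ≤ ‖u‖ := by
    let D : Set (Lp X p μ) := {f | ∃ N, ∀ K, N ≤ K → B.ε / 4 ≤ fn (b' K) f}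
    have hD : Convex ℝ D := by
      rintro f ⟨N, hN⟩ g ⟨M, hM⟩ a c ha hc hac
      refine ⟨max N M, fun K hK => ?_⟩
      rw [map_add, map_smul, map_smul, smul_eq_mul, smul_eq_mul]
      have h1 := hN K ((le_max_left _ _).trans hK)
      have h2 := hM K ((le_max_right _ _).trans hK)
      have h3 : B.ε / 4 = a * (B.ε / 4) + c * (B.ε / 4) := by rw [← add_mul, hac, one_mul]
      rw [h3]
      gcongr
    have hsub : convexHull ℝ (Set.range x) ⊆ D := by
      apply convexHull_min _ hD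
      rintro _ ⟨n, rfl⟩
      refine ⟨n + 1, fun K hK => ?_⟩
      simp only [x]
      rw [map_smul, smul_eq_mul]
      have := hb2 K n hK
      linarith
    intro u hu
    obtain ⟨N, hN⟩ := hsub hu
    refine (hN N le_rfl).trans ?_
    have h1 := (fn (b' N) : Lp X p μ →L[ℝ] ℝ).le_of_opNorm_le (norm_fn _ (hb1 N)) u
    rw [one_mul] at h1
    exact (le_abs_self _).trans h1
  obtain ⟨y, ⟨g, hg⟩, -, hy⟩ := Pool.Agent.Helper902.NA.simons_abs
    (ContinuousLinearMap.id ℝ (Lp X p μ)) (fun u => le_rfl) 0 x hx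
    (fun y => ∃ g : Lp (StrongDual 𝕜 X) q μ, ∀ f, y f = fn g f)
    (fun u t => by
      obtain ⟨g, hg1, hg2⟩ := H u
      refine ⟨fn g, ⟨g, fun _ => rfl⟩, norm_fn g hg1, ?_⟩
      rw [smul_zero, add_zero]
      show fn g u = ‖u‖
      rw [fn_apply, hg2, RCLike.ofReal_re])
    (B.ε / 4) (fun u hu => by
      rw [sub_zero]
      exact hconv u hu) (B.ε / 8) (by positivity)
  have hgi : Integrable g μ := (Lp.memLp g).integrable Fact.out
  have hlim := weak_null B l hl hgi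
  have hlim2 : Tendsto (fun n => y (x n)) atTop (𝓝 0) := by
    have h1 : ∀ n, y (x n) = (1 / 2) * RCLike.re (∫ ω, g ω (W B l n ω) ∂μ) := by
      intro n
      rw [hg]
      simp only [x]
      rw [map_smul, smul_eq_mul, fn_apply]
      congr 2
      apply integral_congr_ae
      filter_upwards [hWt n] with ω hω
      rw [hω]
    simp_rw [h1]
    have h2 := ((RCLike.continuous_re (K := 𝕜)).tendsto 0).comp hlim
    have h3 := h2.const_mul (1 / 2 : ℝ)
    simpa using h3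
  obtain ⟨N, hN⟩ := (hlim2.eventually (gt_mem_nhds (show (0 : ℝ) < B.ε / 8 by positivity))).exists_forall_of_atTop
  obtain ⟨n, hn, h1⟩ := hy N
  have h2 := hN n hn
  rw [map_zero, sub_zero] at h1
  have h3 : B.ε / 4 - B.ε / 8 ≤ y (x n) := h1
  linarith

end

/-- Let `X` be a real or complex Banach space, `μ` a non-atomic probability measure, `p` and `q`
conjugate exponents. If every `f ∈ L^p(μ, X)` attains its norm on the unit ball of `L^q(μ, X*)`
then `X*` has the Radon-Nikodym property. -/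
theorem result {𝕜 X Ω : Type*} [RCLike 𝕜] [NormedAddCommGroup X] [NormedSpace 𝕜 X]
    [CompleteSpace X] [MeasurableSpace Ω] (μ : Measure Ω) [IsProbabilityMeasure μ]
    (hμ : IsNonatomic μ) (p q : ℝ≥0∞) [Fact (1 ≤ p)] [Fact (1 ≤ q)] [ENNReal.HolderConjugate p q]
    (H : ∀ f : Lp X p μ, ∃ g : Lp (StrongDual 𝕜 X) q μ, ‖g‖ ≤ 1 ∧
      ∫ ω, g ω (f ω) ∂μ = ((‖f‖ : ℝ) : 𝕜)) :
    RNP.{u} (StrongDual 𝕜 X) := by
  by_contra hR
  obtain ⟨B⟩ := exists_bush hR
  let : NormedSpace ℝ X := NormedSpace.restrictScalars ℝ 𝕜 X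
  have : IsScalarTower ℝ 𝕜 X := ⟨fun r c x => by
    show (r • c) • x = (algebraMap ℝ 𝕜 r) • (c • x)
    rw [Algebra.smul_def, mul_smul]⟩
  exact contradiction_of_bush (𝕜 := 𝕜) (q := q) hμ H B

end Pool.Agent.Results.MP_01d06f_an.NormAttainmentRNP
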